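import Pool.Agent.F5S.Stmts

/-!
MP_f5cbfa_nt, squad F5S, module MNT: the main term.
-/

set_option autoImplicit false

open MeasureTheory Filter Topology

namespace Pool.Agent.F5S.H1

open Pool.Agent.BTL Pool.Agent.F5S

theorem rho_facts (hVV : S_VV_facts) {M : ℝ} (hM : 1 ≤ M) {A : ℝ × ℝ × ℝ} (hA : A ∈ KM M) :
    Measurable (deriv (VV A)) ∧ (∀ s, 0 ≤ deriv (VV A) s) ∧ (∀ s, deriv (VV A) s ≤ 4 * M) ∧
      Integrable (deriv (VV A)) := by
  obtain ⟨hmono, hlip, h0, hpi⟩ := hVV M hM A hA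
  have hM0 : (0 : ℝ) ≤ 4 * M := by linarith
  have hnn : ∀ s, 0 ≤ deriv (VV A) s := fun s => hmono.deriv_nonneg
  have hL : LipschitzWith (Real.toNNReal (4 * M)) (VV A) := by
    apply LipschitzWith.of_dist_le_mul
    intro x y
    rw [Real.coe_toNNReal _ hM0, Real.dist_eq, Real.dist_eq]
    rcases le_total x y with hxy | hxy
    · rw [abs_sub_comm, abs_of_nonneg (sub_nonneg.2 (hmono hxy)), abs_sub_comm x y,
        abs_of_nonneg (sub_nonneg.2 hxy)]
      exact hlip x y hxy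
    · rw [abs_of_nonneg (sub_nonneg.2 (hmono hxy)), abs_of_nonneg (sub_nonneg.2 hxy)]
      exact hlip y x hxy
  have hle : ∀ s, deriv (VV A) s ≤ 4 * M := by
    intro s
    have h1 := norm_deriv_le_of_lipschitz (x₀ := s) hL
    rw [Real.coe_toNNReal _ hM0, Real.norm_eq_abs, abs_of_nonneg (hnn s)] at h1
    exact h1
  have hm : Measurable (deriv (VV A)) := measurable_deriv _
  refine ⟨hm, hnn, hle, ?_⟩
  have hzero : ∀ s, s ∉ Set.Icc (0 : ℝ) M → deriv (VV A) s = 0 := by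
    intro s hs
    rw [Set.mem_Icc, not_and_or, not_le, not_le] at hs
    rcases hs with hs | hs
    · have h1 : VV A =ᶠ[𝓝 s] fun _ => (0 : ℝ) := by
        filter_upwards [gt_mem_nhds hs] with t ht
        exact h0 t ht.le
      rw [h1.deriv_eq, deriv_const]
    · have h1 : VV A =ᶠ[𝓝 s] fun _ => Real.pi := by
        filter_upwards [lt_mem_nhds hs] with t ht
        exact hpi t ht
      rw [h1.deriv_eq, deriv_const]
  have hind : deriv (VV A) = Set.indicator (Set.Icc (0 : ℝ) M) (deriv (VV A)) := by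
    funext s
    by_cases hs : s ∈ Set.Icc (0 : ℝ) M
    · rw [Set.indicator_of_mem hs]
    · rw [Set.indicator_of_notMem hs, hzero s hs]
  rw [hind, integrable_indicator_iff measurableSet_Icc]
  refine Measure.integrableOn_of_bounded (M := 4 * M) ?_ hm.aestronglyMeasurable ?_
  · rw [Real.volume_Icc]
    exact ENNReal.ofReal_ne_top
  · refine Eventually.of_forall fun s => ?_
    rw [Real.norm_eq_abs, abs_of_nonneg (hnn s)]
    exact hle s

theorem mnt (hVV : S_VV_facts) (hcQ : S_cQ_eq) (fac : FACStmt) (tte : TTEStmt) (ab : ABSStmt) :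
    MNTStmt := by
  intro M hM A hA e p he
  obtain ⟨hm, hnn, hle, hint⟩ := rho_facts hVV hM hA
  have h1 := ab (deriv (VV A)) hm hnn (4 * M) hle hint e (p.1 + p.2) p.2 0 he
  rw [← hcQ M hM A hA] at h1
  have h2 : Tendsto (fun T : ℝ => (T ^ 2)⁻¹) atTop (𝓝[>] 0) :=
    (tendsto_inv_atTop_nhdsGT_zero).comp (tendsto_pow_atTop two_ne_zero)
  refine (h1.comp h2).congr' ?_
  filter_upwards [eventually_gt_atTop 0] with T hT
  have hT2 : (0 : ℝ) < T ^ 2 := by positivity
  have htt : ∀ q s : ℝ, tt T e A (T ^ 2 * s + q) =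
      ∫ u, tn (u / e) * deriv (VV A) (s + (q + u) * (T ^ 2)⁻¹) := by
    intro q s
    rw [tte M hM A hA T e _ hT he]
    refine integral_congr_ae (Eventually.of_forall fun u => ?_)
    change tn (u / e) * deriv (VV A) ((T ^ 2 * s + q + u) / T ^ 2) = _
    have h3 : (T ^ 2 * s + q + u) / T ^ 2 = s + (q + u) * (T ^ 2)⁻¹ := by
      field_simp
      ring
    rw [h3]
  have h4 := Measure.integral_comp_mul_left
    (fun s => tt T e A (s + (p.1 + p.2)) * (tt T e A (s + p.2) * tt T e A s)) (T ^ 2)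
  change (∫ s, _) = _
  rw [fac T e hT he p A, div_eq_inv_mul]
  rw [abs_of_nonneg (inv_nonneg.2 hT2.le), smul_eq_mul] at h4
  rw [← h4]
  refine integral_congr_ae (Eventually.of_forall fun s => ?_)
  change (∫ u, tn (u / e) * deriv (VV A) (s + (p.1 + p.2 + u) * (T ^ 2)⁻¹)) *
    ((∫ u, tn (u / e) * deriv (VV A) (s + (p.2 + u) * (T ^ 2)⁻¹)) *
      (∫ u, tn (u / e) * deriv (VV A) (s + (0 + u) * (T ^ 2)⁻¹))) =
    tt T e A (T ^ 2 * s + (p.1 + p.2)) * (tt T e A (T ^ 2 * s + p.2) * tt T e A (T ^ 2 * s))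
  rw [← htt, ← htt, ← htt, add_zero]

end Pool.Agent.F5S.H1
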